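import Mathlib
import Pool.Agent.H61.Gom.Main

/-!
Unrestricted five in a row on the infinite board is a first-player win, with a strategy that looks
only at the position (the two sets of stones) and with one bound on the number of moves.
-/

set_option autoImplicit false

namespace Pool.Agent.Results.MP_fad43c_co.PositionalWin

/-- The set `S` of cells contains a winning line of size `5`. -/
def HasLine (S : Finset (ℤ × ℤ)) : Prop :=
  ∃ p v : ℤ × ℤ, (v = (1, 0) ∨ v = (0, 1) ∨ v = (1, 1) ∨ v = (1, -1)) ∧
    p ∈ S ∧ p + v ∈ S ∧ p + v + v ∈ S ∧ p + v + v + v ∈ S ∧ p + v + v + v + v ∈ S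

/-- The cells claimed by First after his first `n` moves; the moves are numbered `0, 1, 2, ...`, and
First makes the moves `0, 2, 4, ...`. -/
def first (p : ℕ → ℤ × ℤ) (n : ℕ) : Finset (ℤ × ℤ) := (Finset.range n).image fun i => p (2 * i)

/-- The cells claimed by Second after his first `n` moves. -/
def second (p : ℕ → ℤ × ℤ) (n : ℕ) : Finset (ℤ × ℤ) :=
  (Finset.range n).image fun i => p (2 * i + 1)

open Pool.Agent.H61.Gom (WinN Five Dirs Cell)

theorem hasLine_iff (S : Finset (ℤ × ℤ)) : HasLine S ↔ Five S := by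
  have e2 : ∀ v : ℤ × ℤ, ((2 : ℕ) : ℤ) • v = v + v := fun v => by push_cast; exact two_smul ℤ v
  have e3 : ∀ v : ℤ × ℤ, ((3 : ℕ) : ℤ) • v = v + v + v := fun v => by
    ext <;> simp <;> ring
  have e4 : ∀ v : ℤ × ℤ, ((4 : ℕ) : ℤ) • v = v + v + v + v := fun v => by
    ext <;> simp <;> ring
  constructor
  · rintro ⟨p, v, hv, h0, h1, h2, h3, h4⟩
    refine ⟨p, v, by simpa [Dirs] using hv, fun k hk => ?_⟩
    interval_cases k
    · simpa using h0
    · simpa using h1
    · rw [e2, ← add_assoc]; exact h2
    · rw [e3, ← add_assoc, ← add_assoc]; exact h3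
    · rw [e4, ← add_assoc, ← add_assoc, ← add_assoc]; exact h4
  · rintro ⟨p, v, hv, h⟩
    refine ⟨p, v, by simpa [Dirs] using hv, ?_, ?_, ?_, ?_, ?_⟩
    · simpa using h 0 (by norm_num)
    · simpa using h 1 (by norm_num)
    · have := h 2 (by norm_num)
      rwa [e2, ← add_assoc] at this
    · have := h 3 (by norm_num)
      rwa [e3, ← add_assoc, ← add_assoc] at this
    · have := h 4 (by norm_num)
      rwa [e4, ← add_assoc, ← add_assoc, ← add_assoc] at this

theorem WinN.not_five {n : ℕ} {B W : Finset Cell} (h : WinN n B W) : ¬ Five W := by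
  induction h with
  | five n B W x hB hW h5 h => exact h
  | step n B W x hB hW h ih =>
    obtain ⟨y, hy⟩ := Infinite.exists_notMem_finset (insert x B ∪ W)
    rw [Finset.mem_union, not_or] at hy
    exact fun h5 => ih y hy.1 hy.2 (h5.mono (Finset.subset_insert _ _))

/-- A good move from a won position. -/
theorem move {n : ℕ} {B W : Finset Cell} (h : WinN n B W) :
    ∃ x, x ∉ B ∧ x ∉ W ∧ ∃ k, n = k + 1 ∧ (Five (insert x B) ∨
      ∀ y, y ∉ insert x B → y ∉ W → WinN k (insert x B) (insert y W)) := by
  cases h with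
  | five n _ _ x hB hW h5 h => exact ⟨x, hB, hW, n, rfl, Or.inl h5⟩
  | step n _ _ x hB hW h => exact ⟨x, hB, hW, n, rfl, Or.inr h⟩

open Classical in
/-- The strategy: a good move for the least number of moves in which the position is won. -/
noncomputable def strat (B W : Finset (ℤ × ℤ)) : ℤ × ℤ :=
  if h : ∃ n, WinN n B W then Classical.choose (move (Nat.find_spec h)) else (0, 0)

theorem first_succ (p : ℕ → ℤ × ℤ) (n : ℕ) : first p (n + 1) = insert (p (2 * n)) (first p n) := by
  unfold first
  rw [Finset.range_add_one, Finset.image_insert]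

theorem second_succ (p : ℕ → ℤ × ℤ) (n : ℕ) :
    second p (n + 1) = insert (p (2 * n + 1)) (second p n) := by
  unfold second
  rw [Finset.range_add_one, Finset.image_insert]

theorem play (p : ℕ → ℤ × ℤ)
    (h1 : ∀ n, ¬ HasLine (first p n) → p (2 * n) = strat (first p n) (second p n))
    (h2 : ∀ n, ¬ HasLine (first p (n + 1)) →
      p (2 * n + 1) ∉ first p (n + 1) ∧ p (2 * n + 1) ∉ second p n) :
    ∀ N m : ℕ, WinN N (first p m) (second p m) → ¬ HasLine (first p m) →
      ∃ n, m ≤ n ∧ n < m + N ∧ HasLine (first p (n + 1)) ∧ ¬ HasLine (second p n) ∧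
        ∀ k, m ≤ k → k ≤ n → p (2 * k) ∉ first p k ∧ p (2 * k) ∉ second p k := by
  classical
  intro N
  induction N using Nat.strong_induction_on with
  | _ N ih =>
    intro m hw hn
    have hex : ∃ n, WinN n (first p m) (second p m) := ⟨N, hw⟩
    have hle : Nat.find hex ≤ N := Nat.find_min' hex hw
    have hspec := Classical.choose_spec (move (Nat.find_spec hex))
    have hx : p (2 * m) = Classical.choose (move (Nat.find_spec hex)) := by
      rw [h1 m hn]
      unfold strat
      rw [dif_pos hex]
    rw [← hx] at hspec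
    obtain ⟨hB, hW, k, hk, hcase⟩ := hspec
    rw [← first_succ] at hcase
    have hW5 : ¬ HasLine (second p m) := fun h => WinN.not_five hw ((hasLine_iff _).1 h)
    by_cases h5 : HasLine (first p (m + 1))
    · refine ⟨m, le_rfl, by omega, h5, hW5, fun k h3 h4 => ?_⟩
      obtain rfl : k = m := le_antisymm h4 h3
      exact ⟨hB, hW⟩
    · rcases hcase with hcase | hcase
      · exact absurd ((hasLine_iff _).2 hcase) h5
      · obtain ⟨h3, h4⟩ := h2 m h5
        have h6 := hcase _ h3 h4
        rw [← second_succ] at h6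
        obtain ⟨n, h7, h8, h9, h10, h11⟩ := ih k (by omega) (m + 1) h6 h5
        refine ⟨n, by omega, by omega, h9, h10, fun j hj1 hj2 => ?_⟩
        rcases Nat.eq_or_lt_of_le hj1 with rfl | hj
        · exact ⟨hB, hW⟩
        · exact h11 j hj hj2

/-- There are a number `N` and a positional strategy `σ` of First (his move depends only on the two sets
of cells claimed so far) such that in every play in which First follows `σ` and Second makes legal
moves, as long as First has no line, First completes a line with one of his first `N` moves, before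
Second has one, and all his moves up to then are legal. -/
theorem result : ∃ (N : ℕ) (σ : Finset (ℤ × ℤ) → Finset (ℤ × ℤ) → ℤ × ℤ), ∀ p : ℕ → ℤ × ℤ,
    (∀ n, ¬ HasLine (first p n) → p (2 * n) = σ (first p n) (second p n)) →
    (∀ n, ¬ HasLine (first p (n + 1)) →
      p (2 * n + 1) ∉ first p (n + 1) ∧ p (2 * n + 1) ∉ second p n) →
    ∃ n < N, HasLine (first p (n + 1)) ∧ ¬ HasLine (second p n) ∧
      ∀ k ≤ n, p (2 * k) ∉ first p k ∧ p (2 * k) ∉ second p k := by
  obtain ⟨N, h⟩ := Pool.Agent.H61.Gom.win_start
  refine ⟨N, strat, fun p h1 h2 => ?_⟩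
  have h0 : ¬ HasLine (first p 0) := by
    rintro ⟨q, v, -, h, -⟩
    simp [first] at h
  obtain ⟨n, -, h4, h5, h6, h7⟩ := play p h1 h2 N 0 (by simpa [first, second] using h) h0
  exact ⟨n, by omega, h5, h6, fun k hk => h7 k (Nat.zero_le k) hk⟩

end Pool.Agent.Results.MP_fad43c_co.PositionalWin
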